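import Mathlib.Computability.Halting
import Mathlib.Computability.Primrec.List
import Pool.Agent.Helper437.AbPow.Assembly
import Pool.Agent.Helper437.AbPow.Encode
import Pool.Agent.Helper437.Dio.DPRM

/-! Deciding whether morphic words avoid abelian `k`-th powers (of period at least `p`, or long
ones) is undecidable. -/

namespace Pool.Agent.Results.MP_e5f80e_lc.AbelianPowers

open Pool.Agent.Helper437.AbPow

/-- The image of the letter `c` under the morphism given by the list `H` of the images of the
letters `0, 1, …, |H| - 1`. -/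
def img (H : List (List ℕ)) (c : ℕ) : List ℕ := H.getD c []

/-- The morphism applied to a word. -/
def app (H : List (List ℕ)) (w : List ℕ) : List ℕ := w.flatMap (img H)

/-- The `n`-th iterate of the morphism applied to a word. -/
def iter (H : List (List ℕ)) (n : ℕ) (w : List ℕ) : List ℕ := (app H)^[n] w

/-- The data of a morphic word: `H` is a morphism of the free monoid over the alphabet
`{0, …, |H| - 1}`, `a` is a letter, the list `τ` is a coding of the letters `0, …, |H| - 1`, and
`H` is prolongable on `a`: the image of `a` is `a x` with all iterates of `x` nonempty. -/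
def Valid (H : List (List ℕ)) (a : ℕ) (τ : List ℕ) : Prop :=
  (∀ w ∈ H, ∀ c ∈ w, c < H.length) ∧ a < H.length ∧ τ.length = H.length ∧
    ∃ x, img H a = a :: x ∧ ∀ n, iter H n x ≠ []

/-- The fixed point `h^ω(a)` (its `i`-th letter; the `(i+1)`-st iterate has more than `i`
letters and is a prefix of all later ones, see the first part of `result`). -/
def fixedPoint (H : List (List ℕ)) (a : ℕ) (i : ℕ) : ℕ := (iter H (i + 1) [a]).getD i 0

/-- The morphic word `τ(h^ω(a))`. -/
def morphicWord (H : List (List ℕ)) (a : ℕ) (τ : List ℕ) (i : ℕ) : ℕ :=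
  τ.getD (fixedPoint H a i) 0

/-- The factor of length `L` of the infinite word `x` at position `s`. -/
def factor (x : ℕ → ℕ) (s L : ℕ) : List ℕ := (List.range L).map (fun i => x (s + i))

/-- The factor of length `k * L` at position `s` is an abelian `k`-th power of period `L`: its `k`
consecutive blocks of length `L` have the same Parikh vector. -/
def IsAbPower (x : ℕ → ℕ) (k s L : ℕ) : Prop :=
  1 ≤ L ∧ ∀ j < k, ∀ b, (factor x (s + j * L) L).count b = (factor x s L).count b

/-- The infinite word `x` avoids abelian `k`-th powers of period at least `p`. -/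
def Avoids (x : ℕ → ℕ) (k p : ℕ) : Prop := ∀ s L, p ≤ L → ¬ IsAbPower x k s L

/-! ### Basic facts on morphic words -/

theorem app_append (H : List (List ℕ)) (u v : List ℕ) : app H (u ++ v) = app H u ++ app H v :=
  List.flatMap_append

theorem iter_append (H : List (List ℕ)) (n : ℕ) (u v : List ℕ) :
    iter H n (u ++ v) = iter H n u ++ iter H n v := by
  induction n with
  | zero => rfl
  | succ n ih =>
    unfold iter at ih ⊢
    rw [Function.iterate_succ_apply', Function.iterate_succ_apply', Function.iterate_succ_apply',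
      ih, app_append]

theorem iter_succ (H : List (List ℕ)) (n : ℕ) {a : ℕ} {x : List ℕ} (h : img H a = a :: x) :
    iter H (n + 1) [a] = iter H n [a] ++ iter H n x := by
  have e : app H [a] = [a] ++ x := by
    unfold app
    rw [List.flatMap_singleton, h]
    rfl
  have e2 : iter H (n + 1) [a] = iter H n (app H [a]) := by
    unfold iter
    rw [Function.iterate_succ_apply]
  rw [e2, e, iter_append]

theorem length_iter {H : List (List ℕ)} {a : ℕ} {x : List ℕ} (h : img H a = a :: x)
    (hx : ∀ n, iter H n x ≠ []) (n : ℕ) : n < (iter H n [a]).length := by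
  induction n with
  | zero => exact Nat.one_pos
  | succ n ih =>
    rw [iter_succ H n h, List.length_append]
    have := List.length_pos_iff.2 (hx n)
    omega

theorem iter_prefix {H : List (List ℕ)} {a : ℕ} {x : List ℕ} (h : img H a = a :: x)
    {n m : ℕ} (hnm : n ≤ m) : ∃ y, iter H m [a] = iter H n [a] ++ y := by
  induction m, hnm using Nat.le_induction with
  | base => exact ⟨[], (List.append_nil _).symm⟩
  | succ m _ ih =>
    obtain ⟨y, hy⟩ := ih
    exact ⟨y ++ iter H m x, by rw [iter_succ H m h, hy, List.append_assoc]⟩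

theorem fixedPoint_eq {H : List (List ℕ)} {a : ℕ} {x : List ℕ} (h : img H a = a :: x)
    (hx : ∀ n, iter H n x ≠ []) (n i : ℕ) (hi : i < (iter H n [a]).length) :
    fixedPoint H a i = (iter H n [a]).getD i 0 := by
  unfold fixedPoint
  have hi' : i < (iter H (i + 1) [a]).length := by have := length_iter h hx (i + 1); omega
  rcases le_total n (i + 1) with hn | hn
  · obtain ⟨y, hy⟩ := iter_prefix h hn
    rw [hy, List.getD_append _ _ _ _ hi]
  · obtain ⟨y, hy⟩ := iter_prefix h hn
    rw [hy, List.getD_append _ _ _ _ hi']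

theorem length_factor (x : ℕ → ℕ) (s L : ℕ) : (factor x s L).length = L := by
  unfold factor
  rw [List.length_map, List.length_range]

theorem factor_iter {H : List (List ℕ)} {a : ℕ} {x : List ℕ} (h : img H a = a :: x)
    (hx : ∀ n, iter H n x ≠ []) (n : ℕ) :
    factor (fixedPoint H a) 0 (iter H n [a]).length = iter H n [a] := by
  apply List.ext_getElem
  · exact length_factor _ _ _
  · intro i h1 h2
    simp only [factor, List.getElem_map, List.getElem_range, Nat.zero_add]
    rw [fixedPoint_eq h hx n i h2, List.getD_eq_getElem _ _ h2]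

theorem factor_morphic {H : List (List ℕ)} {a : ℕ} {x : List ℕ} (τ : List ℕ)
    (h : img H a = a :: x) (hx : ∀ n, iter H n x ≠ []) (n : ℕ) :
    factor (morphicWord H a τ) 0 (iter H n [a]).length =
      (iter H n [a]).map (fun c => τ.getD c 0) := by
  have h1 := factor_iter h hx n
  have h2 : factor (morphicWord H a τ) 0 (iter H n [a]).length =
      (factor (fixedPoint H a) 0 (iter H n [a]).length).map (fun c => τ.getD c 0) := by
    unfold factor
    rw [List.map_map]
    rfl
  rw [h2, h1]

/-! ### Powers in infinite words and in prefixes -/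

theorem factor_add (x : ℕ → ℕ) (s L M : ℕ) :
    factor x s (L + M) = factor x s L ++ factor x (s + L) M := by
  unfold factor
  rw [List.range_add, List.map_append, List.map_map]
  congr 1
  apply List.map_congr_left
  intro i _
  simp only [Function.comp, Nat.add_assoc]

theorem take_factor (x : ℕ → ℕ) {n N : ℕ} (h : n ≤ N) :
    (factor x 0 N).take n = factor x 0 n := by
  obtain ⟨d, rfl⟩ := Nat.exists_eq_add_of_le h
  rw [factor_add, List.take_append_of_le_length (by rw [length_factor]),
    List.take_of_length_le (by rw [length_factor])]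

theorem hasPowL_iff (x : ℕ → ℕ) {k L N : ℕ} (hk : 0 < k) :
    HasPowL k L (factor x 0 N) ↔ ∃ s, s + k * L ≤ N ∧ ∀ j < k, ∀ b,
      (factor x (s + j * L) L).count b = (factor x s L).count b := by
  have key : ∀ s, s + k * L ≤ N → ∀ j < k, ∀ b,
      ((factor x 0 N).take (s + (j + 1) * L)).count b =
        ((factor x 0 N).take (s + j * L)).count b + (factor x (s + j * L) L).count b := by
    intro s hs j hj b
    have h1 : (j + 1) * L ≤ k * L := Nat.mul_le_mul_right _ hj
    have h2 : j * L ≤ (j + 1) * L := Nat.mul_le_mul_right _ (Nat.le_succ _)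
    rw [take_factor x (by omega), take_factor x (by omega)]
    have e : s + (j + 1) * L = (s + j * L) + L := by ring
    rw [e, factor_add, List.count_append, Nat.zero_add]
  constructor
  · rintro ⟨s, hs, V, hV⟩
    rw [length_factor] at hs
    refine ⟨s, hs, fun j hj b => ?_⟩
    have h1 := hV j hj b
    have h2 := hV 0 hk b
    rw [key s hs j hj b] at h1
    rw [key s hs 0 hk b] at h2
    rw [Nat.zero_mul, Nat.add_zero] at h2
    omega
  · rintro ⟨s, hs, h⟩
    refine ⟨s, by rw [length_factor]; exact hs, fun b => (factor x s L).count b, ?_⟩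
    intro j hj b
    rw [key s hs j hj b, h j hj b]

theorem hasPowL_of_map {α β : Type} [DecidableEq α] [DecidableEq β] {g : α → β}
    (hg : Function.Injective g) {k L : ℕ} {w : List α} (h : HasPowL k L w) :
    HasPowL k L (w.map g) := by
  classical
  obtain ⟨s, hs, V, hV⟩ := h
  refine ⟨s, by rwa [List.length_map], fun b => if h : ∃ a, g a = b then V h.choose else 0, ?_⟩
  intro j hj b
  by_cases hb : ∃ a, g a = b
  · simp only [dif_pos hb]
    have h1 := hV j hj hb.choose
    obtain ⟨a, ha⟩ := hb
    have h2 : (⟨a, ha⟩ : ∃ a, g a = b).choose = a :=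
      hg ((⟨a, ha⟩ : ∃ a, g a = b).choose_spec.trans ha.symm)
    rw [h2] at h1 ⊢
    rw [← List.map_take, ← List.map_take]
    subst ha
    rw [List.count_map_of_injective _ _ hg, List.count_map_of_injective _ _ hg, h1]
  · simp only [dif_neg hb]
    have e : ∀ p, ((w.map g).take p).count b = 0 := by
      intro p
      rw [List.count_eq_zero]
      intro hmem
      rw [← List.map_take, List.mem_map] at hmem
      obtain ⟨a, -, ha⟩ := hmem
      exact hb ⟨a, ha⟩
    rw [e, e]

/-! ### The reduction -/

instance {C : Type} [Finite C] : Finite (Ltr C) := by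
  let g : Fin 3 ⊕ (Bool × (C ⊕ Bool)) → Ltr C := fun x => match x with
    | Sum.inl 0 => .a
    | Sum.inl 1 => .z
    | Sum.inl 2 => .hs
    | Sum.inr (s, x) => .u s x
  refine Finite.of_surjective g ?_
  intro c
  cases c with
  | a => exact ⟨Sum.inl 0, rfl⟩
  | z => exact ⟨Sum.inl 1, rfl⟩
  | hs => exact ⟨Sum.inl 2, rfl⟩
  | u s x => exact ⟨Sum.inr (s, x), rfl⟩

instance {ι : Type} [Finite ι] : Finite (Cd ι) := by
  let g : Fin 4 ⊕ (Bool ⊕ Option ι) → Cd ι := fun x => match x with
    | Sum.inl 0 => .a
    | Sum.inl 1 => .z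
    | Sum.inl 2 => .hs
    | Sum.inl 3 => .nu
    | Sum.inr (Sum.inl b) => .fill b
    | Sum.inr (Sum.inr l) => .co l
  refine Finite.of_surjective g ?_
  intro c
  cases c with
  | a => exact ⟨Sum.inl 0, rfl⟩
  | z => exact ⟨Sum.inl 1, rfl⟩
  | hs => exact ⟨Sum.inl 2, rfl⟩
  | nu => exact ⟨Sum.inl 3, rfl⟩
  | fill b => exact ⟨Sum.inr (Sum.inl b), rfl⟩
  | co l => exact ⟨Sum.inr (Sum.inr l), rfl⟩

section Numbering

variable {X : Type} {A : ℕ} (e : X ≃ Fin A) (h : X → List X)

/-- the number of a letter -/
def num (c : X) : ℕ := (e c).val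

/-- the list of images -/
def imgs : List (List ℕ) := List.ofFn (fun i : Fin A => (h (e.symm i)).map (num e))

theorem length_imgs : (imgs e h).length = A := List.length_ofFn

theorem img_imgs (c : X) : img (imgs e h) (num e c) = (h c).map (num e) := by
  unfold img
  have h1 : num e c < (imgs e h).length := by rw [length_imgs]; exact (e c).isLt
  rw [List.getD_eq_getElem _ _ h1]
  simp only [imgs, num, List.getElem_ofFn, Fin.eta, Equiv.symm_apply_apply]

theorem app_imgs (w : List X) : app (imgs e h) (w.map (num e)) = (w.flatMap h).map (num e) := by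
  unfold app
  rw [List.flatMap_map, List.map_flatMap]
  congr 1
  funext c
  exact img_imgs e h c

theorem iter_imgs (n : ℕ) (w : List X) : iter (imgs e h) n (w.map (num e)) =
    ((fun w => w.flatMap h)^[n] w).map (num e) := by
  induction n with
  | zero => rfl
  | succ n ih =>
    unfold iter at ih ⊢
    rw [Function.iterate_succ_apply', ih, app_imgs, Function.iterate_succ_apply']

theorem mem_imgs (w : List ℕ) (hw : w ∈ imgs e h) : ∀ c ∈ w, c < (imgs e h).length := by
  intro c hc
  rw [length_imgs]
  unfold imgs at hw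
  rw [List.mem_ofFn] at hw
  obtain ⟨i, rfl⟩ := hw
  rw [List.mem_map] at hc
  obtain ⟨x, -, rfl⟩ := hc
  exact (e x).isLt

/-- the coding list -/
def cods (F : X → ℕ) : List ℕ := List.ofFn (fun i : Fin A => F (e.symm i))

theorem cods_getD (F : X → ℕ) (c : X) : (cods e F).getD (num e c) 0 = F c := by
  have h1 : num e c < (cods e F).length := by
    unfold cods
    rw [List.length_ofFn]
    exact (e c).isLt
  rw [List.getD_eq_getElem _ _ h1]
  simp only [cods, num, List.getElem_ofFn, Fin.eta, Equiv.symm_apply_apply]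

end Numbering

theorem primrec_replicate {f : ℕ → ℕ} (hf : Primrec f) (c : ℕ) :
    Primrec (fun n => List.replicate (f n) c) := by
  have h : Primrec (fun n => (List.range (f n)).map (fun _ => c)) :=
    Primrec.list_map (Primrec.list_range.comp hf) (Primrec.const c).to₂
  refine h.of_eq fun n => ?_
  simp

theorem primrec_app {f g : ℕ → List ℕ} (hf : Primrec f) (hg : Primrec g) :
    Primrec (fun n => f n ++ g n) := Primrec.list_append.comp hf hg

theorem primrec_region {r : ℕ → ℕ} {M' M M'' : ℕ → List ℕ} (z : ℕ) (hr : Primrec r)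
    (h' : Primrec M') (h : Primrec M) (h'' : Primrec M'') :
    Primrec (fun n => region z (r n) (M' n) (M n) (M'' n)) := by
  unfold region
  refine primrec_app h' (primrec_app (Primrec.const _) (primrec_app ?_ h''))
  have h1 : Primrec (fun n => (List.range (r n)).flatMap (fun _ => M n ++ [z])) :=
    Primrec.list_flatMap (Primrec.list_range.comp hr)
      ((primrec_app h (Primrec.const _)).comp Primrec.fst).to₂
  refine h1.of_eq fun n => ?_
  rw [List.flatMap_def]
  simp

section Red

variable {ι : Type} [DecidableEq ι] [Fintype ι] {m : ℕ}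

theorem primrec_image {A : ℕ} (e : Ltr (Ctl ι m) ≃ Fin A) (d : Data ι) (γ : ι → ℤ) (l0 : ι)
    {ν r : ℕ → ℕ} (hν : Primrec ν) (hr : Primrec r) :
    Primrec (fun n => imgs e (hL m d γ l0 (ν n) (r n))) := by
  unfold imgs
  refine Primrec.list_ofFn fun i => ?_
  rcases hc : e.symm i with _ | _ | _ | ⟨s, x⟩
  · -- the growing letter
    have hM : ∀ s : Bool, Primrec (fun n => (MM d γ l0 (ν n) s 0 : List (Ltr (Ctl ι m))).map
        (num e)) := by
      intro s
      have h1 : Primrec (fun n => [num e (.u s (Sum.inl (.b : Ctl ι m)))] ++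
          ((((emit 0 d.L γ : List (Ctl ι m)).map (fun c => num e (.u s (Sum.inl c)))) ++
          List.replicate (ν n) (num e (.u s (Sum.inl (.em 0 l0 true))))) ++
          [num e (.u s (Sum.inl (.loop ⟨m, Nat.lt_succ_self m⟩)))])) :=
        primrec_app (Primrec.const _) (primrec_app (primrec_app (Primrec.const _)
          (primrec_replicate hν _)) (Primrec.const _))
      refine h1.of_eq fun n => ?_
      unfold MM
      rw [HI_zero]
      unfold Yw emPart
      simp [List.map_append, List.map_map, Function.comp_def]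
    have hML : Primrec (fun n => (ML d γ l0 (ν n) 0 : List (Ltr (Ctl ι m))).map
        (num e)) := by
      have h1 : Primrec (fun n => [num e (.u true (Sum.inl (.b : Ctl ι m)))] ++
          ((((emit 0 d.L γ : List (Ctl ι m)).map (fun c => num e (.u false (Sum.inl c)))) ++
          List.replicate (ν n) (num e (.u false (Sum.inl (.em 0 l0 true))))) ++
          [num e (.u false (Sum.inl (.loop ⟨m, Nat.lt_succ_self m⟩)))])) :=
        primrec_app (Primrec.const _) (primrec_app (primrec_app (Primrec.const _)
          (primrec_replicate hν _)) (Primrec.const _))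
      refine h1.of_eq fun n => ?_
      unfold ML
      rw [HI_zero, HI_zero]
      unfold Yr emPart
      simp [List.map_append, List.map_map, Function.comp_def]
    have h2 : Primrec (fun n => [num e (.a : Ltr (Ctl ι m))] ++
        (region (num e (.z : Ltr (Ctl ι m))) (r n + 1)
          ((ML d γ l0 (ν n) 0 : List (Ltr (Ctl ι m))).map (num e))
          ((MM d γ l0 (ν n) false 0 : List (Ltr (Ctl ι m))).map (num e))
          ((MM d γ l0 (ν n) true 0 : List (Ltr (Ctl ι m))).map (num e)) ++
          [num e (.hs : Ltr (Ctl ι m))])) :=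
      primrec_app (Primrec.const [num e (.a : Ltr (Ctl ι m))]) (primrec_app (primrec_region
        (num e (.z : Ltr (Ctl ι m))) (Primrec.succ.comp hr) hML (hM false) (hM true))
        (Primrec.const [num e (.hs : Ltr (Ctl ι m))]))
    refine h2.of_eq fun n => ?_
    unfold hL TT
    rw [List.map_cons, List.map_append, map_region]
    rfl
  · exact Primrec.const ([num e (.z : Ltr (Ctl ι m))] : List ℕ)
  · exact Primrec.const ([num e (.hs : Ltr (Ctl ι m))] : List ℕ)
  · exact Primrec.const (((h0 (ch d) x).map (Ltr.u s)).map (num e))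

end Red

theorem reduction (S : ℕ → Prop) (hS : REPred S) :
    ∃ R : ℕ → List (List ℕ) × ℕ × List ℕ × ℕ, Computable R ∧ ∀ n,
      Valid (R n).1 (R n).2.1 (R n).2.2.1 ∧ 2 ≤ (R n).2.2.2 ∧
      (S n → ∀ p, ¬ Avoids (morphicWord (R n).1 (R n).2.1 (R n).2.2.1) (R n).2.2.2 p) ∧
      (¬ S n → Avoids (morphicWord (R n).1 (R n).2.1 (R n).2.2.1) (R n).2.2.2 1) := by
  obtain ⟨m, ι, _, _, d, γ, l0, hnd, hall, hsol⟩ :=
    exists_loops S (Pool.Agent.Helper437.Dio.dprm hS)
  obtain ⟨kk, hkk⟩ := exists_uniform m d
  obtain ⟨A, ⟨e⟩⟩ : ∃ A, Nonempty (Ltr (Ctl ι m) ≃ Fin A) := Finite.exists_equiv_fin _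
  obtain ⟨F, hF⟩ : ∃ F : Cd ι → ℕ, Function.Injective F := Countable.exists_injective_nat _
  let c0 := (emit 0 d.L γ : List (Ctl ι m)).length
  let rr : ℕ → ℕ := fun n => (c0 + 4 * n + 2) * kk + 8
  have hYc : ∀ n, (Yc m d γ l0 (4 * n)).length + 1 = c0 + 4 * n + 2 := by
    intro n
    unfold Yc emPart
    rw [List.length_append, List.length_append, List.length_replicate]
    rfl
  have hrr : Primrec rr :=
    Primrec.nat_add.comp (Primrec.nat_mul.comp (Primrec.nat_add.comp (Primrec.nat_add.comp
      (Primrec.const _) (Primrec.nat_mul.comp (Primrec.const 4) Primrec.id)) (Primrec.const 2))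
      (Primrec.const _)) (Primrec.const 8)
  let H : ℕ → List (List ℕ) := fun n => imgs e (hL m d γ l0 (4 * n) (rr n))
  have hH : Primrec H := primrec_image e d γ l0
    (Primrec.nat_mul.comp (Primrec.const 4) Primrec.id) hrr
  refine ⟨fun n => (H n, num e .a, cods e (fun c => F (tc c)), rr n + 2), ?_, ?_⟩
  · exact (hH.pair ((Primrec.const _).pair ((Primrec.const _).pair
      (Primrec.nat_add.comp hrr (Primrec.const 2))))).to_comp
  intro n
  simp only
  have himg : img (H n) (num e .a) = num e .a ::
      (TT m d γ l0 (4 * n) (rr n) 0 ++ [Ltr.hs]).map (num e) := img_imgs e _ .a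
  have hhs : ∀ (j : ℕ) (w : List (Ltr (Ctl ι m))), Ltr.hs ∈ w →
      Ltr.hs ∈ (fun w => w.flatMap (hL m d γ l0 (4 * n) (rr n)))^[j] w := by
    intro j w hw
    induction j with
    | zero => exact hw
    | succ j ih =>
      rw [Function.iterate_succ_apply']
      change _ ∈ List.flatMap _ _
      rw [List.mem_flatMap]
      exact ⟨_, ih, List.mem_singleton.2 rfl⟩
  have hne : ∀ j : ℕ, iter (H n) j ((TT m d γ l0 (4 * n) (rr n) 0 ++ [Ltr.hs]).map (num e)) ≠ [] := by
    intro j h0
    have h1 : iter (H n) j ((TT m d γ l0 (4 * n) (rr n) 0 ++ [Ltr.hs]).map (num e)) =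
      ((fun w : List (Ltr (Ctl ι m)) => w.flatMap (hL m d γ l0 (4 * n) (rr n)))^[j]
        (TT m d γ l0 (4 * n) (rr n) 0 ++ [Ltr.hs])).map (num e) := iter_imgs e _ j _
    rw [h1, List.map_eq_nil_iff] at h0
    have h2 := hhs j (TT m d γ l0 (4 * n) (rr n) 0 ++ [Ltr.hs]) (by simp)
    rw [h0] at h2
    exact absurd h2 List.not_mem_nil
  have hword : ∀ j : ℕ, factor (morphicWord (H n) (num e .a) (cods e (fun c => F (tc c)))) 0
      (iter (H n) j [num e .a]).length =
      ((((fun w : List (Ltr (Ctl ι m)) => w.flatMap (hL m d γ l0 (4 * n) (rr n)))^[j] [Ltr.a]).map tc).map F) := by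
    intro j
    rw [factor_morphic _ himg hne j]
    have h1 : iter (H n) j [num e .a] =
      ((fun w : List (Ltr (Ctl ι m)) => w.flatMap (hL m d γ l0 (4 * n) (rr n)))^[j] [Ltr.a]).map (num e) :=
      iter_imgs e _ j [.a]
    rw [h1, List.map_map, List.map_map]
    apply List.map_congr_left
    intro c _
    exact cods_getD e _ c
  obtain ⟨main1, main2⟩ := main_words d γ l0 (4 * n) (r := rr n) hkk hnd hall (by rw [hYc])
  refine ⟨⟨fun w hw => mem_imgs e _ w hw, ?_, ?_, _, himg, hne⟩, by omega, ?_, ?_⟩
  · change num e .a < (imgs e _).length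
    rw [length_imgs]
    exact (e _).isLt
  · change (cods e _).length = (imgs e _).length
    rw [length_imgs]
    exact List.length_ofFn
  · intro hSn p hav
    obtain ⟨j, g, hg, hsolg⟩ := (hsol n).1 hSn
    obtain ⟨L, hLp, hpow⟩ := main2 (max j p)
      ⟨g, ZZ_mono d m (le_max_left j p) hg, hsolg⟩
    have h1 := hasPowL_of_map hF hpow
    rw [← hword, hasPowL_iff _ (by omega)] at h1
    obtain ⟨s, -, hs⟩ := h1
    have := le_max_right j p
    exact hav s L (by omega) ⟨by omega, hs⟩
  · intro hSn s L hLp hp
    apply hSn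
    rw [hsol n]
    obtain ⟨-, hp⟩ := hp
    set k := rr n + 2 with hk
    refine main1 (s + k * L) L hLp ?_
    apply hasPowL_map hF
    rw [← hword, hasPowL_iff _ (by omega)]
    refine ⟨s, ?_, hp⟩
    exact (length_iter himg hne (s + k * L)).le

theorem halt_not_computable : ¬ ComputablePred (fun n : ℕ =>
    (Nat.Partrec.Code.eval (Denumerable.ofNat Nat.Partrec.Code n) 0).Dom) := by
  intro hc
  apply ComputablePred.halting_problem 0
  obtain ⟨f, hf, hfe⟩ := ComputablePred.computable_iff.1 hc
  refine ComputablePred.computable_iff.2 ⟨fun c => f (Encodable.encode c),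
    hf.comp Computable.encode, ?_⟩
  funext c
  have := congrFun hfe (Encodable.encode c)
  simp only [Denumerable.ofNat_encode] at this
  exact this

theorem halt_re : REPred (fun n : ℕ =>
    (Nat.Partrec.Code.eval (Denumerable.ofNat Nat.Partrec.Code n) 0).Dom) := by
  have h : Partrec (fun n : ℕ => Nat.Partrec.Code.eval (Denumerable.ofNat Nat.Partrec.Code n) 0) :=
    Nat.Partrec.Code.eval_part.comp (Computable.ofNat _) (Computable.const 0)
  exact h.dom_re

/-- If avoidance were decided on the instances of the reduction, the halting problem would be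
decidable. -/
theorem undecidable {P : List (List ℕ) × ℕ × List ℕ × ℕ → Prop}
    (h1 : ∀ H a τ k, (∀ p, ¬ Avoids (morphicWord H a τ) k p) → ¬ P (H, a, τ, k))
    (h2 : ∀ H a τ k, Avoids (morphicWord H a τ) k 1 → P (H, a, τ, k)) :
    ¬ ∃ f : List (List ℕ) × ℕ × List ℕ × ℕ → Bool, Computable f ∧
      ∀ H a τ k, Valid H a τ → 2 ≤ k → (f (H, a, τ, k) = true ↔ P (H, a, τ, k)) := by
  rintro ⟨f, hf, hfP⟩
  obtain ⟨R, hR, h⟩ := reduction _ halt_re
  apply halt_not_computable
  refine ComputablePred.computable_iff.2 ⟨fun n => !(f (R n)),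
    Primrec.not.to_comp.comp (hf.comp hR), ?_⟩
  funext n
  obtain ⟨hv, hk, hyes, hno⟩ := h n
  have h3 := hfP (R n).1 (R n).2.1 (R n).2.2.1 (R n).2.2.2 hv hk
  have h4 : ((R n).1, (R n).2.1, (R n).2.2.1, (R n).2.2.2) = R n := rfl
  rw [h4] at h3
  apply propext
  constructor
  · intro hS
    have h5 := h1 _ _ _ _ (hyes hS)
    rw [h4] at h5
    rw [← h3] at h5
    simpa using h5
  · intro hb
    by_contra hS
    have h5 := h2 _ _ _ _ (hno hS)
    rw [h4, ← h3] at h5
    simp [h5] at hb

/-- Morphic words and abelian powers: avoidance of abelian `k`-th powers of period at least `p`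
(already for every fixed `p ≥ 1`) and avoidance of long abelian `k`-th powers are undecidable. -/
theorem result :
    (∀ H a τ, Valid H a τ → ∀ n, n < (iter H n [a]).length ∧
      factor (fixedPoint H a) 0 (iter H n [a]).length = iter H n [a]) ∧
    (¬ ∃ f : List (List ℕ) × ℕ × List ℕ × ℕ × ℕ → Bool, Computable f ∧
      ∀ H a τ k p, Valid H a τ → 2 ≤ k → 1 ≤ p →
        (f (H, a, τ, k, p) = true ↔ Avoids (morphicWord H a τ) k p)) ∧
    (∀ p, 1 ≤ p → ¬ ∃ f : List (List ℕ) × ℕ × List ℕ × ℕ → Bool, Computable f ∧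
      ∀ H a τ k, Valid H a τ → 2 ≤ k →
        (f (H, a, τ, k) = true ↔ Avoids (morphicWord H a τ) k p)) ∧
    (¬ ∃ f : List (List ℕ) × ℕ × List ℕ × ℕ → Bool, Computable f ∧
      ∀ H a τ k, Valid H a τ → 2 ≤ k →
        (f (H, a, τ, k) = true ↔ ∃ p, 1 ≤ p ∧ Avoids (morphicWord H a τ) k p)) := by
  have hfix : ∀ p, 1 ≤ p → ¬ ∃ f : List (List ℕ) × ℕ × List ℕ × ℕ → Bool, Computable f ∧
      ∀ H a τ k, Valid H a τ → 2 ≤ k →
        (f (H, a, τ, k) = true ↔ Avoids (morphicWord H a τ) k p) := by
    intro p hp
    refine undecidable (P := fun x => Avoids (morphicWord x.1 x.2.1 x.2.2.1) x.2.2.2 p) ?_ ?_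
    · intro H a τ k h
      exact h p
    · intro H a τ k h s L hL
      exact h s L (by omega)
  refine ⟨?_, ?_, hfix, ?_⟩
  · rintro H a τ ⟨-, -, -, x, hx, hne⟩ n
    exact ⟨length_iter hx hne n, factor_iter hx hne n⟩
  · rintro ⟨f, hf, h⟩
    refine hfix 1 le_rfl ⟨fun x => f (x.1, x.2.1, x.2.2.1, x.2.2.2, 1), ?_, ?_⟩
    · refine hf.comp ?_
      exact (Primrec.pair Primrec.fst (Primrec.pair (Primrec.fst.comp Primrec.snd)
        (Primrec.pair (Primrec.fst.comp (Primrec.snd.comp Primrec.snd))
          (Primrec.pair (Primrec.snd.comp (Primrec.snd.comp Primrec.snd))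
            (Primrec.const 1))))).to_comp
    · intro H a τ k hv hk
      exact h H a τ k 1 hv hk le_rfl
  · refine undecidable
      (P := fun x => ∃ p, 1 ≤ p ∧ Avoids (morphicWord x.1 x.2.1 x.2.2.1) x.2.2.2 p) ?_ ?_
    · rintro H a τ k h ⟨p, -, hp⟩
      exact h p hp
    · intro H a τ k h
      exact ⟨1, le_rfl, h⟩

end Pool.Agent.Results.MP_e5f80e_lc.AbelianPowers
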